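import Pool.Agent.Helper41.LD3.Defs

/-!
# Project LD3, block GEN: roots of Diophantine bases and common generators
-/

set_option autoImplicit false

namespace Pool.Agent.Helper95.LD3

open Pool.Agent.Helper41.LD (Dioph)

theorem dioph_root {θ : ℝ} {κ : ℕ} (hθ : 1 < θ) (hκ : 1 ≤ κ) (h : Dioph θ κ) {v : ℕ} (hv : 1 ≤ v) : Dioph (θ ^ ((1 : ℝ) / v)) κ := by
  obtain ⟨C, hC, hD⟩ := h
  set τ : ℝ := θ ^ ((1 : ℝ) / v) with hτdef
  have hθ0 : 0 < θ := by linarith
  have hv0 : (0 : ℝ) < v := by exact_mod_cast hv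
  have hv1 : (1 : ℝ) ≤ v := by exact_mod_cast hv
  have hτ1 : 1 < τ := Real.one_lt_rpow hθ (by positivity)
  have hτ0 : 0 < τ := by linarith
  have hτv : τ ^ v = θ := by
    rw [hτdef, ← Real.rpow_natCast, ← Real.rpow_mul hθ0.le, one_div, inv_mul_cancel₀ hv0.ne', Real.rpow_one]
  have hlogτ : 0 < Real.log τ := Real.log_pos hτ1
  -- the constant
  set C2 : ℝ := v + v * (1 + Real.log τ + 1) with hC2
  have hC2pos : 0 < C2 := by positivity
  refine ⟨C * v ^ κ + C2, by positivity, fun d q hd hq p => ?_⟩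
  have hd1 : (1 : ℝ) ≤ d := by exact_mod_cast hd
  have hq1 : (1 : ℝ) ≤ q := by exact_mod_cast hq
  have hlq : 0 ≤ Real.log q := Real.log_nonneg hq1
  set s : ℝ := (d : ℝ) + Real.log q with hs
  have hs1 : 1 ≤ s := by linarith
  have hspow : s ≤ s ^ κ := by
    calc s = s ^ 1 := (pow_one s).symm
      _ ≤ s ^ κ := pow_le_pow_right₀ hs1 hκ
  have hexp1 : Real.exp (-((C * v ^ κ + C2) * s ^ κ)) ≤ 1 := by
    rw [Real.exp_le_one_iff]
    have : 0 ≤ (C * v ^ κ + C2) * s ^ κ := by positivity
    linarith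
  have hqτ : (1 : ℝ) ≤ q * τ ^ d := one_le_mul_of_one_le_of_one_le hq1 (one_le_pow₀ hτ1.le)
  rcases le_or_gt 1 |(q : ℝ) * τ ^ d - p| with h1 | h1
  · exact hexp1.trans h1
  -- p is positive
  have hp0 : (0 : ℝ) < p := by
    rcases le_or_gt p 0 with hp | hp
    · exfalso
      have : (p : ℝ) ≤ 0 := by exact_mod_cast hp
      rw [abs_of_pos (by linarith)] at h1
      linarith
    · exact_mod_cast hp
  have hpub : (p : ℝ) < q * τ ^ d + 1 := by
    have := (abs_lt.1 h1).1
    linarith
  -- the factorisation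
  have hfac : (q : ℝ) ^ v * θ ^ d - (p : ℝ) ^ v = ((q : ℝ) * τ ^ d - p) *
      ∑ i ∈ Finset.range v, ((q : ℝ) * τ ^ d) ^ i * (p : ℝ) ^ (v - 1 - i) := by
    rw [mul_comm ((q : ℝ) * τ ^ d - p), (Commute.all _ _).geom_sum₂_mul, mul_pow, ← pow_mul, mul_comm d v, pow_mul, hτv]
  have hsum : ∑ i ∈ Finset.range v, ((q : ℝ) * τ ^ d) ^ i * (p : ℝ) ^ (v - 1 - i) ≤ v * (q * τ ^ d + 1) ^ (v - 1) := by
    calc ∑ i ∈ Finset.range v, ((q : ℝ) * τ ^ d) ^ i * (p : ℝ) ^ (v - 1 - i)
        ≤ ∑ _i ∈ Finset.range v, ((q : ℝ) * τ ^ d + 1) ^ (v - 1) := by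
          refine Finset.sum_le_sum fun i hi => ?_
          have hi' : i < v := Finset.mem_range.1 hi
          calc ((q : ℝ) * τ ^ d) ^ i * (p : ℝ) ^ (v - 1 - i) ≤ ((q : ℝ) * τ ^ d + 1) ^ i * ((q : ℝ) * τ ^ d + 1) ^ (v - 1 - i) := by
                gcongr
                linarith
            _ = ((q : ℝ) * τ ^ d + 1) ^ (v - 1) := by rw [← pow_add]; congr 1; omega
      _ = v * (q * τ ^ d + 1) ^ (v - 1) := by simp
  have hsum0 : 0 ≤ ∑ i ∈ Finset.range v, ((q : ℝ) * τ ^ d) ^ i * (p : ℝ) ^ (v - 1 - i) := by positivity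
  have hD' := hD d (q ^ v) hd (Nat.one_le_pow _ _ hq) (p ^ v)
  have hcast : ((q ^ v : ℕ) : ℝ) * θ ^ d - ((p ^ v : ℤ) : ℝ) = (q : ℝ) ^ v * θ ^ d - (p : ℝ) ^ v := by push_cast; ring
  rw [hcast, hfac, abs_mul, abs_of_nonneg hsum0] at hD'
  have hD2 : Real.exp (-(C * ((d : ℝ) + Real.log ((q ^ v : ℕ) : ℝ)) ^ κ)) ≤
      |(q : ℝ) * τ ^ d - p| * (v * (q * τ ^ d + 1) ^ (v - 1)) :=
    hD'.trans (mul_le_mul_of_nonneg_left hsum (abs_nonneg _))
  have hlogqv : Real.log ((q ^ v : ℕ) : ℝ) = v * Real.log q := by push_cast; rw [Real.log_pow]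
  -- the first exponent
  have hE1 : C * ((d : ℝ) + Real.log ((q ^ v : ℕ) : ℝ)) ^ κ ≤ C * v ^ κ * s ^ κ := by
    rw [hlogqv, mul_assoc, ← mul_pow]
    have : (d : ℝ) + v * Real.log q ≤ v * s := by rw [hs]; nlinarith
    gcongr
  -- the factor
  have hE2 : (v : ℝ) * (q * τ ^ d + 1) ^ (v - 1) ≤ Real.exp (C2 * s ^ κ) := by
    have e1 : (v : ℝ) ≤ Real.exp v := by
      have := Real.add_one_le_exp (v : ℝ)
      linarith
    have e2 : (q : ℝ) * τ ^ d + 1 ≤ Real.exp (Real.log q + d * Real.log τ + 1) := by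
      have e3 : (q : ℝ) * τ ^ d = Real.exp (Real.log q + d * Real.log τ) := by
        rw [Real.exp_add, Real.exp_log (by linarith), mul_comm (d : ℝ), Real.exp_mul, Real.exp_log hτ0, Real.rpow_natCast]
      rw [Real.exp_add, ← e3]
      have e4 : (2 : ℝ) ≤ Real.exp 1 := by
        have := Real.add_one_le_exp (1 : ℝ)
        linarith
      nlinarith
    have e5 : Real.log q + d * Real.log τ + 1 ≤ (1 + Real.log τ + 1) * s := by
      rw [hs]
      nlinarith
    have e6 : ((q : ℝ) * τ ^ d + 1) ^ (v - 1) ≤ Real.exp (v * ((1 + Real.log τ + 1) * s)) := by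
      calc ((q : ℝ) * τ ^ d + 1) ^ (v - 1) ≤ ((q : ℝ) * τ ^ d + 1) ^ v :=
            pow_le_pow_right₀ (by linarith) (Nat.sub_le v 1)
        _ ≤ (Real.exp ((1 + Real.log τ + 1) * s)) ^ v :=
            pow_le_pow_left₀ (by linarith) (e2.trans (Real.exp_le_exp.2 e5)) v
        _ = Real.exp (v * ((1 + Real.log τ + 1) * s)) := by rw [← Real.exp_nat_mul]
    calc (v : ℝ) * (q * τ ^ d + 1) ^ (v - 1) ≤ Real.exp v * Real.exp (v * ((1 + Real.log τ + 1) * s)) :=
          mul_le_mul e1 e6 (by positivity) (by positivity)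
      _ = Real.exp (v + v * ((1 + Real.log τ + 1) * s)) := (Real.exp_add _ _).symm
      _ ≤ Real.exp (C2 * s ^ κ) := by
        refine Real.exp_le_exp.2 ?_
        have e7 : (v : ℝ) + v * ((1 + Real.log τ + 1) * s) ≤ C2 * s := by rw [hC2]; nlinarith
        exact e7.trans (mul_le_mul_of_nonneg_left hspow hC2pos.le)
  have hfin : Real.exp (-((C * v ^ κ + C2) * s ^ κ)) * Real.exp (C2 * s ^ κ) ≤ |(q : ℝ) * τ ^ d - p| * Real.exp (C2 * s ^ κ) := by
    rw [← Real.exp_add]
    calc Real.exp (-((C * v ^ κ + C2) * s ^ κ) + C2 * s ^ κ) = Real.exp (-(C * v ^ κ * s ^ κ)) := by congr 1; ring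
      _ ≤ Real.exp (-(C * ((d : ℝ) + Real.log ((q ^ v : ℕ) : ℝ)) ^ κ)) := Real.exp_le_exp.2 (neg_le_neg hE1)
      _ ≤ |(q : ℝ) * τ ^ d - p| * (v * (q * τ ^ d + 1) ^ (v - 1)) := hD2
      _ ≤ |(q : ℝ) * τ ^ d - p| * Real.exp (C2 * s ^ κ) := mul_le_mul_of_nonneg_left hE2 (abs_nonneg _)
  exact le_of_mul_le_mul_right hfin (Real.exp_pos _)

theorem generators {κ : ℕ} (hκ : 1 ≤ κ) (θ : ℕ → ℝ) (m : ℕ) (hθ : ∀ i < m, 1 < θ i ∧ Dioph (θ i) κ) :
    ∃ (g : ℕ) (τ : ℕ → ℝ) (cl a : ℕ → ℕ), (∀ h < g, 1 < τ h ∧ Dioph (τ h) κ) ∧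
      (∀ h < g, ∀ h' < g, h ≠ h' → Irrational (Real.log (τ h) / Real.log (τ h'))) ∧
      ∀ i < m, cl i < g ∧ 1 ≤ a i ∧ θ i = τ (cl i) ^ a i := by
  classical
  induction m with
  | zero => exact ⟨0, fun _ => 2, fun _ => 0, fun _ => 1, by simp, by simp, by simp⟩
  | succ m ih =>
    obtain ⟨g, τ, cl, a, h1, h2, h3⟩ := ih fun i hi => hθ i (by omega)
    obtain ⟨hm1, hm2⟩ := hθ m (by omega)
    have hlm : 0 < Real.log (θ m) := Real.log_pos hm1
    by_cases hr : ∃ h < g, ¬ Irrational (Real.log (θ m) / Real.log (τ h))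
    · obtain ⟨h, hg, hnr⟩ := hr
      have hτ1 := (h1 h hg).1
      have hτ0 : 0 < τ h := by linarith
      have hlτ : 0 < Real.log (τ h) := Real.log_pos hτ1
      -- the rational ratio
      obtain ⟨r, hrr⟩ : ∃ r : ℚ, (r : ℝ) = Real.log (θ m) / Real.log (τ h) := by
        exact not_not.1 hnr
      have hr0 : 0 < r := by
        have : (0 : ℝ) < r := by rw [hrr]; positivity
        exact_mod_cast this
      set u : ℕ := r.num.toNat with hu
      set v : ℕ := r.den with hvdef
      have hv : 1 ≤ v := r.den_pos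
      have hnum : (0 : ℤ) < r.num := Rat.num_pos.2 hr0
      have hu1 : 1 ≤ u := by omega
      have hv0 : (0 : ℝ) < v := by exact_mod_cast hv
      have hruv : (r : ℝ) = u / v := by
        have e1 : ((r.num : ℤ) : ℝ) = (u : ℝ) := by
          have : r.num = (u : ℤ) := by omega
          rw [this]; simp
        rw [Rat.cast_def, e1]
      set ρ : ℝ := τ h ^ ((1 : ℝ) / v) with hρ
      have hρ1 : 1 < ρ := Real.one_lt_rpow hτ1 (by positivity)
      have hρv : ρ ^ v = τ h := by
        rw [hρ, ← Real.rpow_natCast, ← Real.rpow_mul hτ0.le, one_div, inv_mul_cancel₀ hv0.ne', Real.rpow_one]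
      have hlρ : Real.log ρ = Real.log (τ h) / v := by
        rw [hρ, Real.log_rpow hτ0]; ring
      have hθm : θ m = ρ ^ u := by
        have e1 : Real.log (θ m) = u * Real.log ρ := by
          rw [hlρ]
          have e2 : Real.log (θ m) = r * Real.log (τ h) := by rw [hrr]; field_simp
          rw [e2, hruv]; ring
        have e3 : Real.log (θ m) = Real.log (ρ ^ u) := by rw [Real.log_pow, e1]
        exact Real.log_injOn_pos (Set.mem_Ioi.2 (by linarith)) (Set.mem_Ioi.2 (by positivity)) e3
      refine ⟨g, Function.update τ h ρ, Function.update cl m h,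
        fun i => if i = m then u else if cl i = h then v * a i else a i, ?_, ?_, ?_⟩
      · intro h' hh'
        by_cases e : h' = h
        · subst e
          rw [Function.update_self]
          exact ⟨hρ1, dioph_root hτ1 hκ (h1 h' hg).2 hv⟩
        · rw [Function.update_of_ne e]
          exact h1 h' hh'
      · intro b hb b' hb' hne
        by_cases e : b = h
        · have e' : b' ≠ h := fun e2 => hne (e.trans e2.symm)
          subst e
          rw [Function.update_self, Function.update_of_ne e', hlρ]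
          have e4 : Real.log (τ b) / v / Real.log (τ b') = Real.log (τ b) / Real.log (τ b') / ((v : ℕ) : ℝ) := by ring
          rw [e4]
          exact (h2 b hb b' hb' hne).div_natCast (by omega)
        · by_cases e' : b' = h
          · subst e'
            rw [Function.update_self, Function.update_of_ne e, hlρ]
            have e4 : Real.log (τ b) / (Real.log (τ b') / v) = Real.log (τ b) / Real.log (τ b') * ((v : ℕ) : ℝ) := by
              field_simp
            rw [e4]
            exact (h2 b hb b' hb' hne).mul_natCast (by omega)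
          · rw [Function.update_of_ne e, Function.update_of_ne e']
            exact h2 b hb b' hb' hne
      · intro i hi
        by_cases e : i = m
        · subst e
          simp only [Function.update_self, if_true]
          exact ⟨hg, hu1, hθm⟩
        · obtain ⟨k1, k2, k3⟩ := h3 i (by omega)
          simp only [Function.update_of_ne e, if_neg e]
          by_cases e' : cl i = h
          · rw [if_pos e', e', Function.update_self]
            refine ⟨hg, Nat.one_le_iff_ne_zero.2 (Nat.mul_ne_zero (by omega) (by omega)), ?_⟩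
            rw [pow_mul, hρv, k3, e']
          · rw [if_neg e', Function.update_of_ne e']
            exact ⟨k1, k2, k3⟩
    · have hr : ∀ h < g, Irrational (Real.log (θ m) / Real.log (τ h)) := fun h hg => by
        by_contra hc
        exact hr ⟨h, hg, hc⟩
      refine ⟨g + 1, Function.update τ g (θ m), Function.update cl m g, Function.update a m 1, ?_, ?_, ?_⟩
      · intro h' hh'
        by_cases e : h' = g
        · subst e
          rw [Function.update_self]
          exact ⟨hm1, hm2⟩
        · rw [Function.update_of_ne e]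
          exact h1 h' (by omega)
      · intro b hb b' hb' hne
        by_cases e : b = g
        · have e' : b' ≠ g := fun e2 => hne (e.trans e2.symm)
          subst e
          rw [Function.update_self, Function.update_of_ne e']
          exact hr b' (by omega)
        · by_cases e' : b' = g
          · subst e'
            rw [Function.update_self, Function.update_of_ne e]
            have e4 : Real.log (τ b) / Real.log (θ m) = (Real.log (θ m) / Real.log (τ b))⁻¹ := by rw [inv_div]
            rw [e4]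
            exact (hr b (by omega)).inv
          · rw [Function.update_of_ne e, Function.update_of_ne e']
            exact h2 b (by omega) b' (by omega) hne
      · intro i hi
        by_cases e : i = m
        · subst e
          simp
        · obtain ⟨k1, k2, k3⟩ := h3 i (by omega)
          rw [Function.update_of_ne e, Function.update_of_ne e, Function.update_of_ne (by omega)]
          exact ⟨by omega, k2, k3⟩

end Pool.Agent.Helper95.LD3
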